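import Pool.Agent.helper64.PB.SpecC

set_option autoImplicit false

namespace Pool.Agent.PB

theorem TAF_mono {G : Set Gate} {n : ℕ} {f : BF n} {s t : ℕ} (h : Size G f s) (hst : s ≤ t) : Size G f t := by
  obtain ⟨l, h1, h2, h3⟩ := h
  exact ⟨l, h1, h2.trans hst, h3⟩

theorem TAF_var (G : Set Gate) {n : ℕ} (j : Fin n) : Size G (fun x : Fin n → Bool => x j) 0 :=
  ⟨[], Prog.nil, le_refl _, Or.inr ⟨j, rfl⟩⟩

theorem TAF_fin (G : Set Gate) (m : ℕ) : ∃ c, ∀ u : BF m, InCl G u → Size G u c := by
  classical
  have h : ∀ u : BF m, ∃ c, InCl G u → Size G u c := by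
    intro u
    by_cases h : InCl G u
    · obtain ⟨s, hs⟩ := h
      exact ⟨s, fun _ => hs⟩
    · exact ⟨0, fun h' => absurd h' h⟩
  choose c hc using h
  exact ⟨Finset.univ.sup c, fun u hu => TAF_mono (hc u hu) (Finset.le_sup (Finset.mem_univ u))⟩

/-- The sum modulo 2 of the variables in the list `l`. -/
def TAF_LS {n : ℕ} (l : List (Fin n)) (x : Fin n → Bool) : Bool := l.foldr (fun i b => xor (x i) b) false

theorem TAF_LS_nil {n : ℕ} (x : Fin n → Bool) : TAF_LS [] x = false := rfl

theorem TAF_LS_cons {n : ℕ} (a : Fin n) (l : List (Fin n)) (x : Fin n → Bool) :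
    TAF_LS (a :: l) x = xor (x a) (TAF_LS l x) := rfl

theorem TAF_LS_congr {n : ℕ} (l : List (Fin n)) (x y : Fin n → Bool) (h : ∀ i ∈ l, x i = y i) :
    TAF_LS l x = TAF_LS l y := by
  induction l with
  | nil => rfl
  | cons a l ih =>
    rw [TAF_LS_cons, TAF_LS_cons, h a (by simp), ih (fun i hi => h i (by simp [hi]))]

theorem TAF_LS_const {n : ℕ} (l : List (Fin n)) (b : Bool) :
    TAF_LS l (fun _ => b) = (decide (l.length % 2 = 1) && b) := by
  induction l with
  | nil => simp [TAF_LS_nil]
  | cons a l ih =>
    rw [TAF_LS_cons, ih, List.length_cons]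
    rcases Nat.mod_two_eq_zero_or_one l.length with h | h
    · have h2 : (l.length + 1) % 2 = 1 := by omega
      cases b <;> simp [h, h2]
    · have h2 : (l.length + 1) % 2 = 0 := by omega
      cases b <;> simp [h, h2]

theorem TAF_rep {n : ℕ} (f : BF n) (hf : Affine f) :
    ∃ A : List (Fin n), A.Nodup ∧ A.length ≤ n ∧
      ∀ x, f x = xor (f fun _ => false) (TAF_LS A x) := by
  classical
  set g : BF n := fun x => xor (f x) (f fun _ => false) with hg
  have gadd : ∀ x y, g (fun i => xor (x i) (y i)) = xor (g x) (g y) := by
    intro x y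
    have h := hf x y (fun _ => false)
    simp only [Bool.xor_false] at h
    simp only [hg, h]
    cases f x <;> cases f y <;> cases f (fun _ => false) <;> rfl
  have g0 : g (fun _ => false) = false := by simp [hg]
  let D : Fin n → Bool := fun i => g (fun j => decide (j = i))
  have key : ∀ (l : List (Fin n)) (x : Fin n → Bool), l.Nodup →
      g (fun i => decide (i ∈ l) && x i) = TAF_LS (l.filter D) x := by
    intro l x
    induction l with
    | nil =>
      intro _
      simp only [List.not_mem_nil, decide_false, Bool.false_and, List.filter_nil, TAF_LS_nil]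
      exact g0
    | cons a l ih =>
      intro hnd
      rw [List.nodup_cons] at hnd
      have h1 : (fun i => decide (i ∈ a :: l) && x i) =
          fun i => xor (decide (i = a) && x a) (decide (i ∈ l) && x i) := by
        funext i
        by_cases hia : i = a
        · subst hia
          simp [hnd.1]
        · simp [hia]
      rw [h1, gadd (fun i => decide (i = a) && x a) (fun i => decide (i ∈ l) && x i), ih hnd.2]
      have h2 : g (fun i => decide (i = a) && x a) = (D a && x a) := by
        cases hx : x a
        · simp only [Bool.and_false]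
          exact g0
        · simp only [Bool.and_true]
          rfl
      rw [h2, List.filter_cons]
      cases hD : D a
      · simp
      · simp [TAF_LS_cons]
  refine ⟨(List.finRange n).filter D, (List.nodup_finRange n).filter _, ?_, ?_⟩
  · refine (List.length_filter_le _ _).trans ?_
    rw [List.length_finRange]
  · intro x
    have h := key (List.finRange n) x (List.nodup_finRange n)
    have h1 : (fun i => decide (i ∈ List.finRange n) && x i) = x := by
      funext i
      simp [List.mem_finRange]
    rw [h1] at h
    rw [← h]
    simp only [hg]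
    cases f x <;> cases f (fun _ => false) <;> rfl

/-- `x + y + z` -/
def TAF_P : BF 3 := fun x => xor (x 0) (xor (x 1) (x 2))

theorem TAF_comp {G : Set Gate} (hCLP : CLP_stmt) {m n : ℕ} {F : BF m} {φ : Fin m → BF n} {H : BF n} (hF : InCl G F)
    (hφ : ∀ i, InCl G (φ i)) (h : ∀ x, H x = F fun i => φ i x) : InCl G H := by
  have : H = fun x => F fun i => φ i x := funext h
  rw [this]
  exact hCLP.2 G m n F φ hF hφ

theorem TAF_pin {G : Set Gate} (hCLP : CLP_stmt) (q : BF 3) (hq : InCl G q) (g e : Bool)
    (h : ∀ y, q y = xor g (xor (y 0) (xor (y 1) (e && y 2)))) : InCl G TAF_P := by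
  cases e
  · refine TAF_comp hCLP (F := q) (φ := ![q, fun y => y 2, fun y => y 2]) hq ?_ ?_
    · intro i
      fin_cases i
      · exact hq
      · exact hCLP.1 G 3 2
      · exact hCLP.1 G 3 2
    · intro y
      rw [h]
      simp only [Matrix.cons_val_zero, Matrix.cons_val_one, TAF_P]
      rw [h]
      cases g <;> cases y 0 <;> cases y 1 <;> cases y 2 <;> simp
  · cases g
    · have : TAF_P = q := by
        funext y
        rw [h, TAF_P]
        simp
      rw [this]
      exact hq
    · refine TAF_comp hCLP (F := q) (φ := ![q, fun y => y 0, fun y => y 0]) hq ?_ ?_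
      · intro i
        fin_cases i
        · exact hq
        · exact hCLP.1 G 3 0
        · exact hCLP.1 G 3 0
      · intro y
        rw [h]
        simp only [Matrix.cons_val_zero, Matrix.cons_val_one, Matrix.cons_val_two, TAF_P, Matrix.tail_cons,
          Matrix.head_cons]
        rw [h]
        cases y 0 <;> cases y 1 <;> cases y 2 <;> simp

theorem TAF_odd {G : Set Gate} (hCMP : CMP_stmt) {n : ℕ} (c : ℕ) (hP : Size G TAF_P c) :
    ∀ (k : ℕ) (l : List (Fin n)), l.length = 2 * k + 1 → Size G (fun x => TAF_LS l x) (k * c) := by
  intro k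
  induction k with
  | zero =>
    intro l hl
    match l, hl with
    | [a], _ =>
      have : (fun x : Fin n → Bool => TAF_LS [a] x) = fun x => x a := by
        funext x
        simp [TAF_LS_cons, TAF_LS_nil]
      rw [this]
      exact TAF_mono (TAF_var G a) (by omega)
  | succ k ih =>
    intro l hl
    match l, hl with
    | a :: b :: l, hl =>
      have hl' : l.length = 2 * k + 1 := by
        simp only [List.length_cons] at hl
        omega
      have h := hCMP G 3 n TAF_P ![fun x => x a, fun x => x b, fun x => TAF_LS l x] c ![0, 0, k * c] hP (by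
        intro i
        fin_cases i
        · exact TAF_var G a
        · exact TAF_var G b
        · exact ih l hl')
      have h2 : (fun x : Fin n → Bool => TAF_LS (a :: b :: l) x) =
          fun x => TAF_P fun i => (![fun x => x a, fun x => x b, fun x => TAF_LS l x] : Fin 3 → BF n) i x := by
        funext x
        simp [TAF_P, TAF_LS_cons]
      rw [h2]
      refine TAF_mono h ?_
      rw [Fin.sum_univ_three]
      simp
      ring_nf
      rfl

theorem TAF (hPRP : PRP_stmt) (hCLP : CLP_stmt) (hSUB : SUB_stmt) (hCMP : CMP_stmt) : TAF_stmt := by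
  classical
  intro G hG
  obtain ⟨c1, hc1⟩ := TAF_fin G 1
  obtain ⟨c2, hc2⟩ := TAF_fin G 2
  obtain ⟨c3, hc3⟩ := TAF_fin G 3
  set c : ℕ := c1 + c2 + c3 with hc
  refine ⟨c, fun n hn f hf => ?_⟩
  have haff : Affine f := (hPRP G n f hf).1 hG
  obtain ⟨A, hnd, hlen, hrep⟩ := TAF_rep f haff
  -- the unary function
  have hu : InCl G (fun y : Fin 1 → Bool => f fun _ => y 0) :=
    hCLP.2 G n 1 f (fun _ y => y 0) hf (fun _ => hCLP.1 G 1 0)
  have hus : Size G (fun y : Fin 1 → Bool => f fun _ => y 0) c := TAF_mono (hc1 _ hu) (by omega)
  have husub : ∀ (W : BF n) (s : ℕ), Size G W s → Size G (fun x => f fun _ => W x) (c + s) := by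
    intro W s hW
    have h := hCMP G 1 n _ (fun _ => W) c (fun _ => s) hus (fun _ => hW)
    simpa using h
  have hcn : c ≤ c * n := Nat.le_mul_of_pos_right c hn
  match A, hnd, hlen, hrep with
  | [], _, _, hrep =>
    have h := husub (fun x => x ⟨0, hn⟩) 0 (TAF_var G _)
    have h2 : f = fun x : Fin n → Bool => f fun _ => x ⟨0, hn⟩ := by
      funext x
      rw [hrep x, hrep (fun _ => x ⟨0, hn⟩), TAF_LS_nil, TAF_LS_nil]
    rw [h2]
    exact TAF_mono h (by omega)
  | [a], _, _, hrep =>
    have h := husub (fun x => x a) 0 (TAF_var G _)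
    have h2 : f = fun x : Fin n → Bool => f fun _ => x a := by
      funext x
      rw [hrep x, hrep (fun _ => x a), TAF_LS_cons, TAF_LS_cons, TAF_LS_nil, TAF_LS_nil]
    rw [h2]
    exact TAF_mono h (by omega)
  | a :: b :: l, hnd, hlen, hrep =>
    simp only [List.nodup_cons, List.mem_cons, not_or] at hnd
    obtain ⟨⟨hab, hal⟩, hbl, hl⟩ := hnd
    simp only [List.length_cons] at hlen
    -- x + y + z
    have hq : InCl G (fun y : Fin 3 → Bool => f fun i => if i = a then y 0 else if i = b then y 1 else y 2) := by
      refine TAF_comp hCLP (F := f) (φ := fun i y => if i = a then y 0 else if i = b then y 1 else y 2) hf ?_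
        (fun _ => rfl)
      intro i
      by_cases h1 : i = a
      · simp only [h1, if_true]
        exact hCLP.1 G 3 0
      · by_cases h2 : i = b
        · simp only [h2, if_true, if_neg (Ne.symm hab)]
          exact hCLP.1 G 3 1
        · simp only [h1, h2, if_false]
          exact hCLP.1 G 3 2
    have hP : InCl G TAF_P := by
      refine TAF_pin hCLP _ hq (f fun _ => false) (decide (l.length % 2 = 1)) ?_
      intro y
      rw [hrep, TAF_LS_cons, TAF_LS_cons,
        TAF_LS_congr l (fun i => if i = a then y 0 else if i = b then y 1 else y 2) (fun _ => y 2) (by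
          intro i hi
          have h1 : i ≠ a := fun h => hal (h ▸ hi)
          have h2 : i ≠ b := fun h => hbl (h ▸ hi)
          simp [h1, h2]), TAF_LS_const]
      simp [Ne.symm hab]
    have hPs : Size G TAF_P c := TAF_mono (hc3 _ hP) (by omega)
    rcases Nat.mod_two_eq_zero_or_one l.length with hpar | hpar
    · -- even number of variables
      obtain ⟨k, hk⟩ : ∃ k, l.length = 2 * k := ⟨l.length / 2, by omega⟩
      have hW := TAF_odd (G := G) hCMP c hPs k (b :: l) (by simp [hk])
      have hv : InCl G (fun y : Fin 2 → Bool => f fun i => if i = a then y 0 else y 1) := by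
        refine TAF_comp hCLP (F := f) (φ := fun i y => if i = a then y 0 else y 1) hf ?_ (fun _ => rfl)
        intro i
        by_cases h1 : i = a
        · simp only [h1, if_true]
          exact hCLP.1 G 2 0
        · simp only [h1, if_false]
          exact hCLP.1 G 2 1
      have hvs : Size G (fun y : Fin 2 → Bool => f fun i => if i = a then y 0 else y 1) c :=
        TAF_mono (hc2 _ hv) (by omega)
      have h := hCMP G 2 n _ ![fun x => x a, fun x => TAF_LS (b :: l) x] c ![0, k * c] hvs (by
        intro i
        fin_cases i
        · exact TAF_var G a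
        · exact hW)
      have h2 : f = fun x : Fin n → Bool => (fun y : Fin 2 → Bool => f fun i => if i = a then y 0 else y 1)
          fun i => (![fun x => x a, fun x => TAF_LS (b :: l) x] : Fin 2 → BF n) i x := by
        funext x
        dsimp only
        rw [hrep x]
        rw [hrep (fun i => if i = a then _ else _), TAF_LS_cons, TAF_LS_cons a,
          TAF_LS_congr (b :: l) (fun i => if i = a then _ else _) (fun _ => TAF_LS (b :: l) x) (by
            intro i hi
            have h1 : i ≠ a := by
              intro h
              subst h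
              simp only [List.mem_cons] at hi
              rcases hi with hi | hi
              · exact hab hi
              · exact hal hi
            simp [h1]), TAF_LS_const]
        have h5 : l.length % 2 = 0 := hpar
        have h6 : (l.length + 1) % 2 = 1 := by omega
        simp [h6]
      rw [h2]
      refine TAF_mono h ?_
      rw [Fin.sum_univ_two]
      simp only [Matrix.cons_val_zero, Matrix.cons_val_one]
      have : (k + 1) * c ≤ n * c := Nat.mul_le_mul_right c (by omega)
      nlinarith
    · obtain ⟨k, hk⟩ : ∃ k, l.length = 2 * k + 1 := ⟨l.length / 2, by omega⟩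
      have hW := TAF_odd (G := G) hCMP c hPs (k + 1) (a :: b :: l) (by simp [hk]; ring)
      have h := husub _ _ hW
      have h2 : f = fun x : Fin n → Bool => f fun _ => TAF_LS (a :: b :: l) x := by
        funext x
        rw [hrep x, hrep (fun _ => TAF_LS (a :: b :: l) x), TAF_LS_const]
        have h6 : (l.length + 1 + 1) % 2 = 1 := by omega
        simp [h6]
      rw [h2]
      refine TAF_mono h ?_
      have : (k + 2) * c ≤ n * c := Nat.mul_le_mul_right c (by omega)
      nlinarith

end Pool.Agent.PB
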